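import Pool.Agent.MP_1921ec_al.Final

/-!
A Zariski-dense subgroup `Γ₂` of `SL₂(ℂ)` which is weakly commensurable to an `S`-arithmetic
subgroup `Γ₁` of `S`-rank at least two, but which is not `S`-arithmetic.
-/

open IsDedekindDomain NumberField Pool.Agent.MP_1921ec_al

namespace Pool.Agent.Results.MP_1921ec_al.HigherRankCounterexample

theorem result : ∃ (K : Subfield ℂ) (_ : NumberField K) (n : ℕ) (D : ArithDatum K n)
    (Γ₁ Γ₂ : Subgroup SL2C), ZariskiDense Γ₁ ∧ D.IsArithmetic Γ₁ ∧ 2 ≤ D.SRank ∧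
      ZariskiDense Γ₂ ∧ WeaklyCommensurable Γ₁ Γ₂ ∧ ¬ IsSArithmetic Γ₂ := by
  obtain ⟨Γ₂, -, h1, h2, h3, h4⟩ := main
  exact ⟨KK, instNumberFieldKK, 4, DD, G1, Γ₂, h1, isArithmetic_G1, two_le_SRank, h2, h3, h4⟩

end Pool.Agent.Results.MP_1921ec_al.HigherRankCounterexample
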